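import Pool.Agent.R222.DM.Sqrt

set_option autoImplicit false

/-!
# Supporting functionals
-/

namespace Pool.Agent.R222.DM

open Set Real

variable {E : Type*} [NormedAddCommGroup E] [NormedSpace ℝ E]

/-- Norm-one supporting functionals at `x`. -/
def J (x : E) : Set (StrongDual ℝ E) := {p | ‖p‖ = 1 ∧ p x = 1}

theorem exists_J {x : E} (hx : ‖x‖ = 1) : ∃ p, p ∈ J x := by
  obtain ⟨g, hg1, hg2⟩ := exists_dual_vector ℝ x (by rw [hx]; norm_num)
  refine ⟨g, hg1, ?_⟩
  rw [hg2, hx]; simp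

theorem J_neg {x : E} {p : StrongDual ℝ E} (hp : p ∈ J x) : -p ∈ J (-x) := by
  refine ⟨by rw [norm_neg]; exact hp.1, ?_⟩
  simp [hp.2]

/-- Good pairs of points. -/
def Pair (E : Type*) [NormedAddCommGroup E] [NormedSpace ℝ E] (ε : ℝ) : Prop :=
  ∃ (x y : E) (p q : StrongDual ℝ E), ‖x‖ = 1 ∧ ‖y‖ = 1 ∧ ‖x - y‖ = ε ∧ p ∈ J x ∧ q ∈ J y ∧
    ε ^ 2 ≤ (p - q) (x - y)

/-- Good pairs of functionals. -/
def PairD (E : Type*) [NormedAddCommGroup E] [NormedSpace ℝ E] (ε : ℝ) : Prop :=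
  ∃ (x y : E) (p q : StrongDual ℝ E), ‖x‖ = 1 ∧ ‖y‖ = 1 ∧ ‖p - q‖ = ε ∧ p ∈ J x ∧ q ∈ J y ∧
    ε ^ 2 ≤ (p - q) (x - y)

theorem pair_one (hE : 1 < Module.rank ℝ E) : Pair E 1 := by
  have : Nontrivial E := by
    rw [← rank_pos_iff_nontrivial (R := ℝ)]
    exact lt_trans zero_lt_one hE
  obtain ⟨x, hx⟩ := exists_norm_eq E (zero_le_one (α := ℝ))
  obtain ⟨y, hy, hxy⟩ := exists_dist hE x hx (c := 1) (by norm_num) (by norm_num)
  have hz : ‖y - x‖ = 1 := by rw [norm_sub_rev]; exact hxy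
  obtain ⟨p, hp⟩ := exists_J hx
  obtain ⟨q, hq⟩ := exists_J hy
  obtain ⟨r, hr⟩ := exists_J hz
  have e : (p - q) (x - y) + (q - r) (y - (y - x)) + (r - -p) ((y - x) - -x) = 3 := by
    have h1 := hp.2
    have h2 := hq.2
    have h3 := hr.2
    simp only [map_sub, map_neg, sub_apply, neg_apply]
      at h3 ⊢
    linarith
  by_contra hcon
  have c1 : (p - q) (x - y) < 1 := by
    by_contra h; push Not at h
    exact hcon ⟨x, y, p, q, hx, hy, hxy, hp, hq, by simpa using h⟩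
  have c2 : (q - r) (y - (y - x)) < 1 := by
    by_contra h; push Not at h
    exact hcon ⟨y, y - x, q, r, hy, hz, by simpa using hx, hq, hr, by
      rw [one_pow]; exact h⟩
  have c3 : (r - -p) ((y - x) - -x) < 1 := by
    by_contra h; push Not at h
    exact hcon ⟨y - x, -x, r, -p, hz, by simpa using hx, by simpa using hy, hr, J_neg hp, by
      rw [one_pow]; exact h⟩
  linarith

theorem pair_sqrt (hE : 1 < Module.rank ℝ E) : Pair E √2 := by
  obtain ⟨x, y, hx, hy, h1, h2⟩ := exists_sqrt_two hE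
  obtain ⟨p, hp⟩ := exists_J hx
  obtain ⟨q, hq⟩ := exists_J hy
  have hs : √2 ^ 2 = 2 := Real.sq_sqrt (by norm_num)
  have e : (p - q) (x - y) + (p - -q) (x - -y) = 4 := by
    have h1 := hp.2
    have h2 := hq.2
    simp only [map_sub, map_neg, sub_apply, neg_apply]
    linarith
  by_contra hcon
  have c1 : (p - q) (x - y) < 2 := by
    by_contra h; push Not at h
    exact hcon ⟨x, y, p, q, hx, hy, h1, hp, hq, by rw [hs]; exact h⟩
  have c2 : (p - -q) (x - -y) < 2 := by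
    by_contra h; push Not at h
    exact hcon ⟨x, -y, p, -q, hx, by rwa [norm_neg], by rw [sub_neg_eq_add]; exact h2, hp,
      J_neg hq, by rw [hs]; exact h⟩
  linarith

/-- Norm-attaining points in finite dimension. -/
theorem exists_attain [FiniteDimensional ℝ E] [Nontrivial E] (c : StrongDual ℝ E) :
    ∃ x : E, ‖x‖ = 1 ∧ c x = ‖c‖ := by
  have hK : IsCompact (Metric.sphere (0 : E) 1) := isCompact_sphere 0 1
  have hne : (Metric.sphere (0 : E) 1).Nonempty := by
    obtain ⟨x, hx⟩ := exists_norm_eq E (zero_le_one (α := ℝ))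
    exact ⟨x, by simpa using hx⟩
  obtain ⟨x, hx, hm⟩ := hK.exists_isMaxOn hne c.continuous.continuousOn
  have hx1 : ‖x‖ = 1 := by simpa using hx
  refine ⟨x, hx1, le_antisymm ?_ ?_⟩
  · calc c x ≤ ‖c x‖ := Real.le_norm_self _
      _ ≤ ‖c‖ * ‖x‖ := c.le_opNorm x
      _ = ‖c‖ := by rw [hx1, mul_one]
  · have h0 : 0 ≤ c x := by
      have h1 : c (-x) ≤ c x := hm (by simpa using hx1)
      rw [map_neg] at h1
      linarith
    refine c.opNorm_le_bound h0 fun v => ?_
    rcases eq_or_ne v 0 with rfl | hv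
    · simp
    have hv' : 0 < ‖v‖ := norm_pos_iff.2 hv
    have hu : ‖‖v‖⁻¹ • v‖ = 1 := by
      rw [norm_smul, norm_inv, norm_norm, inv_mul_cancel₀ hv'.ne']
    have a1 : c (‖v‖⁻¹ • v) ≤ c x := hm (by simpa using hu)
    have a2 : c (-(‖v‖⁻¹ • v)) ≤ c x := hm (by simpa using hu)
    rw [map_neg] at a2
    rw [map_smul, smul_eq_mul] at a1 a2
    rw [Real.norm_eq_abs, abs_le]
    have e : ‖v‖ * (‖v‖⁻¹ * c v) = c v := by rw [← mul_assoc, mul_inv_cancel₀ hv'.ne', one_mul]
    constructor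
    · nlinarith
    · nlinarith

theorem exists_attain' [FiniteDimensional ℝ E] [Nontrivial E] {c : StrongDual ℝ E}
    (hc : ‖c‖ = 1) : ∃ x : E, ‖x‖ = 1 ∧ c ∈ J x := by
  obtain ⟨x, hx, h⟩ := exists_attain c
  exact ⟨x, hx, hc, by rw [h, hc]⟩

theorem rank_dual [FiniteDimensional ℝ E] (hE : 1 < Module.rank ℝ E) :
    1 < Module.rank ℝ (StrongDual ℝ E) := by
  have h1 : 1 < Module.finrank ℝ E := by
    rw [← Module.finrank_eq_rank] at hE
    exact_mod_cast hE
  have h2 : Module.finrank ℝ (StrongDual ℝ E) = Module.finrank ℝ E := by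
    rw [← (LinearMap.toContinuousLinearMap (𝕜 := ℝ) (E := E) (F' := ℝ)).finrank_eq]
    exact Subspace.dual_finrank_eq
  rw [← Module.finrank_eq_rank, h2]
  exact_mod_cast h1

theorem pairD_one [FiniteDimensional ℝ E] (hE : 1 < Module.rank ℝ E) : PairD E 1 := by
  have : Nontrivial E := by
    rw [← rank_pos_iff_nontrivial (R := ℝ)]
    exact lt_trans zero_lt_one hE
  have hD := rank_dual hE
  have : Nontrivial (StrongDual ℝ E) := by
    rw [← rank_pos_iff_nontrivial (R := ℝ)]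
    exact lt_trans zero_lt_one hD
  obtain ⟨p, hp⟩ := exists_norm_eq (StrongDual ℝ E) (zero_le_one (α := ℝ))
  obtain ⟨q, hq, hpq⟩ := exists_dist hD p hp (c := 1) (by norm_num) (by norm_num)
  have hr : ‖q - p‖ = 1 := by rw [norm_sub_rev]; exact hpq
  obtain ⟨x, hx, hxp⟩ := exists_attain' hp
  obtain ⟨y, hy, hyq⟩ := exists_attain' hq
  obtain ⟨z, hz, hzr⟩ := exists_attain' hr
  have e : (p - q) (x - y) + (q - (q - p)) (y - z) + ((q - p) - -p) (z - -x) = 3 := by
    have h1 := hxp.2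
    have h2 := hyq.2
    have h3 := hzr.2
    simp only [map_sub, map_neg, sub_apply, neg_apply]
      at h3 ⊢
    linarith
  by_contra hcon
  have c1 : (p - q) (x - y) < 1 := by
    by_contra h; push Not at h
    exact hcon ⟨x, y, p, q, hx, hy, hpq, hxp, hyq, by rw [one_pow]; exact h⟩
  have c2 : (q - (q - p)) (y - z) < 1 := by
    by_contra h; push Not at h
    exact hcon ⟨y, z, q, q - p, hy, hz, by rw [sub_sub_cancel]; exact hp, hyq, hzr, by
      rw [one_pow]; exact h⟩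
  have c3 : ((q - p) - -p) (z - -x) < 1 := by
    by_contra h; push Not at h
    exact hcon ⟨z, -x, q - p, -p, hz, by rwa [norm_neg], by
      rw [sub_neg_eq_add, sub_add_cancel]; exact hq, hzr, J_neg hxp, by rw [one_pow]; exact h⟩
  linarith

theorem pairD_sqrt [FiniteDimensional ℝ E] (hE : 1 < Module.rank ℝ E) : PairD E √2 := by
  have : Nontrivial E := by
    rw [← rank_pos_iff_nontrivial (R := ℝ)]
    exact lt_trans zero_lt_one hE
  obtain ⟨p, q, hp, hq, h1, h2⟩ := exists_sqrt_two (rank_dual hE)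
  obtain ⟨x, hx, hxp⟩ := exists_attain' hp
  obtain ⟨y, hy, hyq⟩ := exists_attain' hq
  have hs : √2 ^ 2 = 2 := Real.sq_sqrt (by norm_num)
  have e : (p - q) (x - y) + (p - -q) (x - -y) = 4 := by
    have h1 := hxp.2
    have h2 := hyq.2
    simp only [map_sub, map_neg, sub_apply, neg_apply]
    linarith
  by_contra hcon
  have c1 : (p - q) (x - y) < 2 := by
    by_contra h; push Not at h
    exact hcon ⟨x, y, p, q, hx, hy, h1, hxp, hyq, by rw [hs]; exact h⟩
  have c2 : (p - -q) (x - -y) < 2 := by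
    by_contra h; push Not at h
    exact hcon ⟨x, -y, p, -q, hx, by rwa [norm_neg], by rw [sub_neg_eq_add]; exact h2, hxp,
      J_neg hyq, by rw [hs]; exact h⟩
  linarith

end Pool.Agent.R222.DM
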