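import Pool.Agent.R222.DM.Move

set_option autoImplicit false

/-!
# Duality between the two inequalities, compactness, subspaces
-/

namespace Pool.Agent.R222.DM

open Set Real

variable {E F : Type*} [NormedAddCommGroup E] [NormedSpace ℝ E]
  [NormedAddCommGroup F] [NormedSpace ℝ F]

theorem plusP_of_minusP [FiniteDimensional ℝ F] (Φ : F ≃ₗᵢ[ℝ] StrongDual ℝ E) {ε : ℝ}
    (h0 : 0 ≤ ε) (h2 : ε ≤ 2) (hE : 1 < Module.rank ℝ E) (hF : 1 < Module.rank ℝ F)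
    (h : MinusP E ε) : PlusP F ε := by
  rcases h0.eq_or_lt with rfl | h0
  · have : Nontrivial F := by
      rw [← rank_pos_iff_nontrivial (R := ℝ)]
      exact lt_trans zero_lt_one hF
    obtain ⟨x, hx⟩ := exists_norm_eq F (zero_le_one (α := ℝ))
    obtain ⟨p, hp⟩ := exists_J hx
    exact ⟨x, x, p, p, hx, hx, by simp, hp, hp, norm_nonneg _⟩
  obtain ⟨x, y, p, q, hx, hy, hxy, hp, hq, hc⟩ := h
  have np : ‖Φ.symm p‖ = 1 := by rw [LinearIsometryEquiv.norm_map, hp.1]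
  have nq : ‖Φ.symm q‖ = 1 := by rw [LinearIsometryEquiv.norm_map, hq.1]
  have hne : ev Φ x ≠ ev Φ y := by
    intro h
    have h1 : ‖ev Φ x - ev Φ y‖ = ε := by rw [ev_sub, norm_ev, hxy]
    rw [h, sub_self, norm_zero] at h1
    linarith
  obtain ⟨w, f, hw, hf, hxw, hle⟩ := move_up (ε := ε) np nq (ev_mem_J Φ hx hp) (ev_mem_J Φ hy hq)
    hne (by rw [← map_sub, LinearIsometryEquiv.norm_map]; exact hc) h2
  refine ⟨Φ.symm p, w, ev Φ x, f, np, hw, hxw, ev_mem_J Φ hx hp, hf, ?_⟩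
  rw [ev_sub, norm_ev, hxy] at hle
  exact hle

theorem minusP_of_plusP [FiniteDimensional ℝ F] (Φ : F ≃ₗᵢ[ℝ] StrongDual ℝ E) {ε : ℝ}
    (h0 : 0 ≤ ε) (h2 : ε ≤ 2) (hF : 1 < Module.rank ℝ F)
    (h : PlusP E ε) : MinusP F ε := by
  rcases h2.eq_or_lt with rfl | hlt
  · have : Nontrivial F := by
      rw [← rank_pos_iff_nontrivial (R := ℝ)]
      exact lt_trans zero_lt_one hF
    obtain ⟨x, hx⟩ := exists_norm_eq F (zero_le_one (α := ℝ))
    obtain ⟨p, hp⟩ := exists_J hx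
    refine ⟨x, -x, p, -p, hx, by rwa [norm_neg], ?_, hp, J_neg hp, ?_⟩
    · rw [sub_neg_eq_add, ← two_smul ℝ x, norm_smul, hx]; norm_num
    · rw [sub_neg_eq_add, ← two_smul ℝ p, norm_smul, hp.1]; norm_num
  obtain ⟨x, y, p, q, hx, hy, hxy, hp, hq, hc⟩ := h
  have np : ‖Φ.symm p‖ = 1 := by rw [LinearIsometryEquiv.norm_map, hp.1]
  have nq : ‖Φ.symm q‖ = 1 := by rw [LinearIsometryEquiv.norm_map, hq.1]
  have hne : ev Φ x ≠ -ev Φ y := by
    intro h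
    have h1 : ‖ev Φ x - ev Φ y‖ = ε := by rw [ev_sub, norm_ev, hxy]
    have h3 : -ev Φ y - ev Φ y = (-2 : ℝ) • ev Φ y := by module
    rw [h, h3, norm_smul, norm_ev, hy] at h1
    norm_num at h1
    linarith
  obtain ⟨w, f, hw, hf, hxw, hle⟩ := move_down (ε := ε) np nq (ev_mem_J Φ hx hp)
    (ev_mem_J Φ hy hq) hne h0 (by rw [← map_sub, LinearIsometryEquiv.norm_map]; exact hc)
  refine ⟨Φ.symm p, w, ev Φ x, f, np, hw, hxw, ev_mem_J Φ hx hp, hf, ?_⟩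
  rw [ev_sub, norm_ev, hxy] at hle
  exact hle

theorem finrank_dual [FiniteDimensional ℝ E] :
    Module.finrank ℝ (StrongDual ℝ E) = Module.finrank ℝ E := by
  rw [← (LinearMap.toContinuousLinearMap (𝕜 := ℝ) (E := E) (F' := ℝ)).finrank_eq]
  exact Subspace.dual_finrank_eq

/-- The evaluation as an isometry of `E` onto the dual of its dual. -/
noncomputable def bid (E : Type*) [NormedAddCommGroup E] [NormedSpace ℝ E]
    [FiniteDimensional ℝ E] : E ≃ₗᵢ[ℝ] StrongDual ℝ (StrongDual ℝ E) :=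
  (NormedSpace.inclusionInDoubleDualLi (𝕜 := ℝ) (E := E)).toLinearIsometryEquiv (by
    rw [finrank_dual, finrank_dual])

theorem minusP_iff [FiniteDimensional ℝ E] (hE : 1 < Module.rank ℝ E) {ε : ℝ}
    (h0 : 0 ≤ ε) (h2 : ε ≤ 2) : MinusP E ε ↔ PlusP (StrongDual ℝ E) ε := by
  constructor
  · exact plusP_of_minusP (LinearIsometryEquiv.refl ℝ _) h0 h2 hE (rank_dual hE)
  · exact minusP_of_plusP (bid E) h0 h2 hE

theorem plusP_iff [FiniteDimensional ℝ E] (hE : 1 < Module.rank ℝ E) {ε : ℝ}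
    (h0 : 0 ≤ ε) (h2 : ε ≤ 2) : PlusP E ε ↔ MinusP (StrongDual ℝ E) ε := by
  constructor
  · exact minusP_of_plusP (LinearIsometryEquiv.refl ℝ _) h0 h2 (rank_dual hE)
  · exact plusP_of_minusP (bid E) h0 h2 (rank_dual hE) hE

/-- The set of the distances of the supporting functionals. -/
def dSet (E : Type*) [NormedAddCommGroup E] [NormedSpace ℝ E] (ε : ℝ) : Set ℝ :=
  {d | ∃ (x y : E) (p q : StrongDual ℝ E), ‖x‖ = 1 ∧ ‖y‖ = 1 ∧ ‖x - y‖ = ε ∧ p ∈ J x ∧ q ∈ J y ∧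
    ‖p - q‖ = d}

theorem dSet_bdd (ε : ℝ) : BddAbove (dSet E ε) ∧ BddBelow (dSet E ε) := by
  constructor
  · refine ⟨2, ?_⟩
    rintro d ⟨x, y, p, q, -, -, -, hp, hq, rfl⟩
    calc ‖p - q‖ ≤ ‖p‖ + ‖q‖ := norm_sub_le _ _
      _ = 2 := by rw [hp.1, hq.1]; norm_num
  · refine ⟨0, ?_⟩
    rintro d ⟨x, y, p, q, -, -, -, hp, hq, rfl⟩
    exact norm_nonneg _

theorem dSet_nonempty (hE : 1 < Module.rank ℝ E) {ε : ℝ} (h0 : 0 ≤ ε) (h2 : ε ≤ 2) :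
    (dSet E ε).Nonempty := by
  have : Nontrivial E := by
    rw [← rank_pos_iff_nontrivial (R := ℝ)]
    exact lt_trans zero_lt_one hE
  obtain ⟨x, hx⟩ := exists_norm_eq E (zero_le_one (α := ℝ))
  obtain ⟨y, hy, hxy⟩ := exists_dist hE x hx h0 h2
  obtain ⟨p, hp⟩ := exists_J hx
  obtain ⟨q, hq⟩ := exists_J hy
  exact ⟨_, x, y, p, q, hx, hy, hxy, hp, hq, rfl⟩

theorem isCompact_dSet [FiniteDimensional ℝ E] (ε : ℝ) : IsCompact (dSet E ε) := by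
  have : ProperSpace (StrongDual ℝ E) := FiniteDimensional.proper ℝ _
  have hK : IsCompact (((Metric.sphere (0 : E) 1) ×ˢ (Metric.sphere (0 : E) 1)) ×ˢ
      ((Metric.sphere (0 : StrongDual ℝ E) 1) ×ˢ (Metric.sphere (0 : StrongDual ℝ E) 1)) ∩
      {z | ‖z.1.1 - z.1.2‖ = ε ∧ z.2.1 z.1.1 = 1 ∧ z.2.2 z.1.2 = 1}) := by
    refine (((isCompact_sphere _ _).prod (isCompact_sphere _ _)).prod
      ((isCompact_sphere _ _).prod (isCompact_sphere _ _))).inter_right ?_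
    refine (isClosed_eq (by fun_prop) continuous_const).inter ?_
    exact (isClosed_eq (by fun_prop) continuous_const).inter
      (isClosed_eq (by fun_prop) continuous_const)
  have := hK.image_of_continuousOn (f := fun z => ‖z.2.1 - z.2.2‖) (by fun_prop)
  convert this using 1
  ext d
  constructor
  · rintro ⟨x, y, p, q, hx, hy, hxy, hp, hq, rfl⟩
    exact ⟨((x, y), (p, q)), ⟨⟨⟨by simpa using hx, by simpa using hy⟩,
      ⟨by simpa using hp.1, by simpa using hq.1⟩⟩, hxy, hp.2, hq.2⟩, rfl⟩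
  · rintro ⟨⟨⟨x, y⟩, ⟨p, q⟩⟩, ⟨⟨⟨hx, hy⟩, ⟨hp, hq⟩⟩, hxy, hpx, hqy⟩, rfl⟩
    exact ⟨x, y, p, q, by simpa using hx, by simpa using hy, hxy, ⟨by simpa using hp, hpx⟩,
      ⟨by simpa using hq, hqy⟩, rfl⟩

/-- The lower modulus. -/
noncomputable def dMinus (E : Type*) [NormedAddCommGroup E] [NormedSpace ℝ E] (ε : ℝ) : ℝ :=
  sInf (dSet E ε)

/-- The upper modulus. -/
noncomputable def dPlus (E : Type*) [NormedAddCommGroup E] [NormedSpace ℝ E] (ε : ℝ) : ℝ :=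
  sSup (dSet E ε)

theorem le_dPlus {ε : ℝ} (h : PlusP E ε) : ε ≤ dPlus E ε := by
  obtain ⟨x, y, p, q, hx, hy, hxy, hp, hq, hc⟩ := h
  exact hc.trans (le_csSup (dSet_bdd ε).1 ⟨x, y, p, q, hx, hy, hxy, hp, hq, rfl⟩)

theorem dMinus_le {ε : ℝ} (h : MinusP E ε) : dMinus E ε ≤ ε := by
  obtain ⟨x, y, p, q, hx, hy, hxy, hp, hq, hc⟩ := h
  exact (csInf_le (dSet_bdd ε).2 ⟨x, y, p, q, hx, hy, hxy, hp, hq, rfl⟩).trans hc

theorem le_dPlus_iff [FiniteDimensional ℝ E] (hE : 1 < Module.rank ℝ E) {ε : ℝ} (h0 : 0 ≤ ε)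
    (h2 : ε ≤ 2) : ε ≤ dPlus E ε ↔ PlusP E ε := by
  refine ⟨fun h => ?_, le_dPlus⟩
  obtain ⟨x, y, p, q, hx, hy, hxy, hp, hq, e⟩ :=
    (isCompact_dSet (E := E) ε).sSup_mem (dSet_nonempty hE h0 h2)
  exact ⟨x, y, p, q, hx, hy, hxy, hp, hq, by rw [e]; exact h⟩

theorem dMinus_le_iff [FiniteDimensional ℝ E] (hE : 1 < Module.rank ℝ E) {ε : ℝ} (h0 : 0 ≤ ε)
    (h2 : ε ≤ 2) : dMinus E ε ≤ ε ↔ MinusP E ε := by
  refine ⟨fun h => ?_, dMinus_le⟩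
  obtain ⟨x, y, p, q, hx, hy, hxy, hp, hq, e⟩ :=
    (isCompact_dSet (E := E) ε).sInf_mem (dSet_nonempty hE h0 h2)
  exact ⟨x, y, p, q, hx, hy, hxy, hp, hq, by rw [e]; exact h⟩

/-- Large functional distances pass from a subspace to the whole space. -/
theorem plusP_of_subspace (V : Submodule ℝ E) {ε : ℝ} (h : PlusP V ε) : PlusP E ε := by
  obtain ⟨x, y, p, q, hx, hy, hxy, hp, hq, hc⟩ := h
  obtain ⟨P, hP1, hP2⟩ := exists_extension_norm_eq V p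
  obtain ⟨Q, hQ1, hQ2⟩ := exists_extension_norm_eq V q
  refine ⟨x, y, P, Q, hx, hy, hxy, ⟨by rw [hP2, hp.1], by rw [hP1, hp.2]⟩,
    ⟨by rw [hQ2, hq.1], by rw [hQ1, hq.2]⟩, hc.trans ?_⟩
  refine (p - q).opNorm_le_bound (norm_nonneg _) fun v => ?_
  have e : (p - q) v = (P - Q) (v : E) := by
    rw [sub_apply, sub_apply, hP1, hQ1]
  rw [e]
  exact (P - Q).le_opNorm _

theorem plusP_of_pair {ε : ℝ} (h0 : 0 < ε) (h : Pair E ε) : PlusP E ε := by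
  obtain ⟨x, y, p, q, hx, hy, hxy, hp, hq, hc⟩ := h
  refine ⟨x, y, p, q, hx, hy, hxy, hp, hq, ?_⟩
  have h1 : (p - q) (x - y) ≤ ‖p - q‖ * ‖x - y‖ :=
    (Real.le_norm_self _).trans ((p - q).le_opNorm _)
  rw [hxy] at h1
  have h2 : ε * ε ≤ ‖p - q‖ * ε := by nlinarith
  exact le_of_mul_le_mul_right h2 h0

end Pool.Agent.R222.DM
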