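import Mathlib

set_option autoImplicit false

/-!
# Planar geometry of unit vectors: monotonicity and an isosceles pair with distance `√2`
-/

namespace Pool.Agent.R222.DM

open Set

variable {E : Type*} [NormedAddCommGroup E] [NormedSpace ℝ E]

/-- Monotonicity lemma. -/
theorem mono {a b c : E} (ha : ‖a‖ = 1) (hb : ‖b‖ = 1) (hc : ‖c‖ = 1) {s t : ℝ} (hs : 0 ≤ s)
    (ht : 0 ≤ t) (h : b = s • a + t • c) : ‖a - b‖ ≤ ‖a - c‖ := by
  have h1 : 1 ≤ s + t := by
    calc (1 : ℝ) = ‖s • a + t • c‖ := by rw [← h, hb]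
      _ ≤ ‖s • a‖ + ‖t • c‖ := norm_add_le _ _
      _ = s + t := by
        rw [norm_smul, norm_smul, ha, hc, Real.norm_of_nonneg hs, Real.norm_of_nonneg ht]; ring
  set w : ℝ := (s + t)⁻¹ with hw
  have hpos : 0 < s + t := by linarith
  have hw0 : 0 < w := inv_pos.2 hpos
  have hw1 : w ≤ 1 := inv_le_one_of_one_le₀ h1
  have hws : w * (s + t) = 1 := inv_mul_cancel₀ hpos.ne'
  have e1 : a - b = (w * t) • (a - c) + (w - 1) • b := by
    have : (w * s + w * t) = 1 := by rw [← mul_add]; exact hws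
    rw [h]
    have h3 : a - (s • a + t • c) = (w * s + w * t) • a - (s • a + t • c) := by
      rw [this, one_smul]
    rw [h3]
    module
  have e2 : c = (-(w * s)) • (a - c) + w • b := by
    have : (w * s + w * t) = 1 := by rw [← mul_add]; exact hws
    rw [h]
    have h3 : c = (w * s + w * t) • c := by rw [this, one_smul]
    have h4 : (-(w * s)) • (a - c) + w • (s • a + t • c) = (w * s + w * t) • c := by module
    rw [h4, this, one_smul]
  have n1 : ‖a - b‖ ≤ w * t * ‖a - c‖ + (1 - w) := by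
    calc ‖a - b‖ = ‖(w * t) • (a - c) + (w - 1) • b‖ := by rw [← e1]
      _ ≤ ‖(w * t) • (a - c)‖ + ‖(w - 1) • b‖ := norm_add_le _ _
      _ = w * t * ‖a - c‖ + (1 - w) := by
        rw [norm_smul, norm_smul, hb, Real.norm_of_nonneg (by positivity), Real.norm_of_nonpos
          (by linarith)]
        ring
  have n2 : 1 ≤ w * s * ‖a - c‖ + w := by
    calc 1 = ‖(-(w * s)) • (a - c) + w • b‖ := by rw [← e2, hc]
      _ ≤ ‖(-(w * s)) • (a - c)‖ + ‖w • b‖ := norm_add_le _ _
      _ = w * s * ‖a - c‖ + w := by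
        rw [norm_smul, norm_smul, hb, norm_neg, Real.norm_of_nonneg (by positivity),
          Real.norm_of_nonneg hw0.le]
        ring
  have n3 : w * t * ‖a - c‖ + w * s * ‖a - c‖ = ‖a - c‖ := by
    have : w * t * ‖a - c‖ + w * s * ‖a - c‖ = (w * (s + t)) * ‖a - c‖ := by ring
    rw [this, hws, one_mul]
  linarith

/-- Uniqueness of isosceles orthogonality on one side. -/
theorem iso_unique {x y z : E} (hx : ‖x‖ = 1) (hy : ‖y‖ = 1) (hz : ‖z‖ = 1) {l m : ℝ} (hm : 0 < m)
    (h : y = l • x + m • z) (h1 : ‖x - y‖ = ‖x + y‖) (h2 : ‖x - z‖ = ‖x + z‖) :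
    ‖x - y‖ = ‖x - z‖ := by
  have key : ∀ {y z : E} {l m : ℝ}, ‖y‖ = 1 → ‖z‖ = 1 → 0 < m → 0 ≤ l → y = l • x + m • z →
      ‖x - y‖ = ‖x + y‖ → ‖x - z‖ = ‖x + z‖ → ‖x - y‖ = ‖x - z‖ := by
    intro y z l m hy hz hm hl h h1 h2
    have a1 := mono hx hy hz hl hm.le h
    have h' : z = (l / m) • (-x) + (1 / m) • y := by
      rw [h, smul_add, smul_smul, smul_smul, one_div, inv_mul_cancel₀ hm.ne', one_smul]
      have : m⁻¹ * l = l / m := by field_simp
      rw [this]
      module
    have a2 := mono (a := -x) (by rw [norm_neg, hx]) hz hy (div_nonneg hl hm.le)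
      (by positivity) h'
    have b1 : ‖-x - z‖ = ‖x + z‖ := by rw [← norm_neg]; congr 1; abel
    have b2 : ‖-x - y‖ = ‖x + y‖ := by rw [← norm_neg]; congr 1; abel
    rw [b1, b2] at a2
    linarith
  rcases le_total 0 l with hl | hl
  · exact key hy hz hm hl h h1 h2
  · have h' : z = (-l / m) • x + (1 / m) • y := by
      rw [h, smul_add, smul_smul, smul_smul, one_div, inv_mul_cancel₀ hm.ne', one_smul]
      have : m⁻¹ * l = l / m := by field_simp
      rw [this]
      module
    exact (key hz hy (by positivity) (div_nonneg (by linarith) hm.le) h' h2 h1).symm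

/-- Unit vectors at distance one. -/
theorem exists_dist (hE : 1 < Module.rank ℝ E) (x : E) (hx : ‖x‖ = 1) {c : ℝ} (h0 : 0 ≤ c)
    (h2 : c ≤ 2) : ∃ y : E, ‖y‖ = 1 ∧ ‖x - y‖ = c := by
  have hS : IsPreconnected (Metric.sphere (0 : E) 1) := isPreconnected_sphere hE 0 1
  have hc : ContinuousOn (fun y : E => ‖x - y‖) (Metric.sphere (0 : E) 1) := by fun_prop
  have := hS.intermediate_value (a := x) (b := -x) (by simpa using hx) (by simpa using hx) hc
  have hm : c ∈ Icc (‖x - x‖) (‖x - -x‖) := by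
    constructor
    · simpa using h0
    · rw [sub_neg_eq_add, ← two_smul ℝ x, norm_smul, hx]
      simpa using h2
  obtain ⟨y, hy, hxy⟩ := this hm
  exact ⟨y, by simpa using hy, hxy⟩

/-- A pair of unit vectors with `‖x - y‖ = ‖x + y‖`. -/
theorem exists_iso (hE : 1 < Module.rank ℝ E) (x : E) (hx : ‖x‖ = 1) :
    ∃ y : E, ‖y‖ = 1 ∧ ‖x - y‖ = ‖x + y‖ := by
  have hS : IsPreconnected (Metric.sphere (0 : E) 1) := isPreconnected_sphere hE 0 1
  have hc : ContinuousOn (fun y : E => ‖x - y‖ - ‖x + y‖) (Metric.sphere (0 : E) 1) := by fun_prop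
  have := hS.intermediate_value (a := x) (b := -x) (by simpa using hx) (by simpa using hx) hc
  have hm : (0 : ℝ) ∈ Icc (‖x - x‖ - ‖x + x‖) (‖x - -x‖ - ‖x + -x‖) := by
    constructor
    · simp
    · rw [sub_neg_eq_add]
      simp
  obtain ⟨y, hy, hxy⟩ := this hm
  exact ⟨y, by simpa using hy, by linarith [hxy]⟩

end Pool.Agent.R222.DM
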