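import Pool.Agent.R222.DM.Transfer

set_option autoImplicit false

/-!
# Moving a support point along an arc; the duality argument
-/

namespace Pool.Agent.R222.DM

open Set Real

variable {E : Type*} [NormedAddCommGroup E] [NormedSpace ℝ E]

theorem seg_ne' {p q : StrongDual ℝ E} (hp : ‖p‖ = 1) (hq : ‖q‖ = 1) (h : p ≠ -q) {t : ℝ}
    (ht : t ∈ Icc (0 : ℝ) 1) : seg p q t ≠ 0 := by
  intro h0
  have e : (1 - t) • p = -(t • q) := eq_neg_of_add_eq_zero_left h0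
  have hn : 1 - t = t := by
    have := congrArg norm e
    rw [norm_neg, norm_smul, norm_smul, hp, hq, Real.norm_of_nonneg (by linarith [ht.2]),
      Real.norm_of_nonneg ht.1, mul_one, mul_one] at this
    exact this
  have ht2 : t = 1 / 2 := by linarith
  subst ht2
  apply h
  have : p = (2 : ℝ) • ((1 - 1 / 2 : ℝ) • p) := by rw [smul_smul]; norm_num
  rw [this, e, smul_neg, smul_smul]; norm_num

/-- Moving along the arc from `p` to `q`. -/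
theorem move [FiniteDimensional ℝ E] {x u0 v0 : E} {p q : StrongDual ℝ E} {ε : ℝ}
    (hu0 : ‖u0‖ = 1) (hv0 : ‖v0‖ = 1) (hp : p ∈ J u0) (hq : q ∈ J v0) (hpq : p ≠ -q)
    (h0 : ‖x - u0‖ ≤ ε) (h1 : ε ≤ ‖x - v0‖) :
    ∃ (w : E) (f : StrongDual ℝ E) (s t : ℝ), ‖w‖ = 1 ∧ f ∈ J w ∧ ‖x - w‖ = ε ∧ 0 ≤ s ∧ 0 ≤ t ∧
      f = s • p + t • q := by
  have : Nontrivial E := ⟨u0, 0, by rintro rfl; rw [norm_zero] at hu0; norm_num at hu0⟩
  have kA := (isCompact_KT x p q (isClosed_Iic (a := ε))).image continuous_fst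
  have kB := (isCompact_KT x p q (isClosed_Ici (a := ε))).image continuous_fst
  have hpre : IsPreconnected (Icc (0 : ℝ) 1) := isPreconnected_Icc
  rw [isPreconnected_closed_iff] at hpre
  obtain ⟨t, ht, ⟨z, hz, hzt⟩, ⟨z', hz', hzt'⟩⟩ := hpre _ _ kA.isClosed kB.isClosed (by
    intro t ht
    obtain ⟨v, hv, hv2⟩ := exists_attain (seg p q t)
    rcases le_total ‖x - v‖ ε with hc | hc
    · exact Or.inl ⟨(t, v), ⟨⟨ht, by simpa using hv⟩, hv2, hc⟩, rfl⟩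
    · exact Or.inr ⟨(t, v), ⟨⟨ht, by simpa using hv⟩, hv2, hc⟩, rfl⟩)
    ⟨0, by simp, (0, u0), ⟨⟨by simp, by simpa using hu0⟩, by
      simp [seg, hp.1, hp.2], h0⟩, rfl⟩
    ⟨1, by simp, (1, v0), ⟨⟨by simp, by simpa using hv0⟩, by
      simp [seg, hq.1, hq.2], h1⟩, rfl⟩
  obtain ⟨t1, u⟩ := z
  obtain ⟨t2, v⟩ := z'
  simp only at hzt hzt'
  subst hzt
  subst hzt'
  obtain ⟨⟨-, a1⟩, a2, a3⟩ := hz
  obtain ⟨⟨-, b1⟩, b2, b3⟩ := hz'
  simp only [mem_Iic, mem_Ici, mem_sphere_iff_norm, sub_zero] at a1 a2 a3 b1 b2 b3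
  have hc0 : 0 < ‖seg p q t2‖ := norm_pos_iff.2 (seg_ne' hp.1 hq.1 hpq ht)
  have hcont : ContinuousOn (fun s : ℝ => ‖x - ((1 - s) • u + s • v)‖) (Icc 0 1) := by fun_prop
  have hiv := intermediate_value_Icc (zero_le_one (α := ℝ)) hcont
  obtain ⟨s, hs, hsε⟩ := hiv (show ε ∈ Icc _ _ by
    simp only [sub_zero, one_smul, zero_smul, add_zero, sub_self, zero_add]
    exact ⟨a3, b3⟩)
  simp only at hsε
  set w : E := (1 - s) • u + s • v with hw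
  have cw : seg p q t2 w = ‖seg p q t2‖ := by
    rw [hw, map_add, map_smul, map_smul, a2, b2, smul_eq_mul, smul_eq_mul]; ring
  have hw1 : ‖w‖ = 1 := by
    refine le_antisymm ?_ ?_
    · calc ‖w‖ ≤ ‖(1 - s) • u‖ + ‖s • v‖ := norm_add_le _ _
        _ = 1 := by
          rw [norm_smul, norm_smul, a1, b1, Real.norm_of_nonneg (by linarith [hs.2]),
            Real.norm_of_nonneg hs.1]; ring
    · have h1 : ‖seg p q t2‖ ≤ ‖seg p q t2‖ * ‖w‖ := by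
        calc ‖seg p q t2‖ = seg p q t2 w := cw.symm
          _ ≤ ‖seg p q t2 w‖ := Real.le_norm_self _
          _ ≤ _ := (seg p q t2).le_opNorm w
      by_contra hlt
      push Not at hlt
      nlinarith
  have hq1 : ‖‖seg p q t2‖⁻¹ • seg p q t2‖ = 1 := by
    rw [norm_smul, norm_inv, norm_norm, inv_mul_cancel₀ hc0.ne']
  refine ⟨w, ‖seg p q t2‖⁻¹ • seg p q t2, ‖seg p q t2‖⁻¹ * (1 - t2), ‖seg p q t2‖⁻¹ * t2, hw1,
    ⟨hq1, ?_⟩, hsε, mul_nonneg (by positivity) (by linarith [ht.2]),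
    mul_nonneg (by positivity) ht.1, ?_⟩
  · change ‖seg p q t2‖⁻¹ * seg p q t2 w = 1
    rw [cw, inv_mul_cancel₀ hc0.ne']
  · rw [← smul_smul, ← smul_smul, ← smul_add]
    rfl

/-- Moving closer. -/
theorem move_down [FiniteDimensional ℝ E] {x y : E} {p q : StrongDual ℝ E} {ε : ℝ}
    (hx : ‖x‖ = 1) (hy : ‖y‖ = 1) (hp : p ∈ J x) (hq : q ∈ J y) (hpq : p ≠ -q)
    (h0 : 0 ≤ ε) (h1 : ε ≤ ‖x - y‖) :
    ∃ (w : E) (f : StrongDual ℝ E), ‖w‖ = 1 ∧ f ∈ J w ∧ ‖x - w‖ = ε ∧ ‖p - f‖ ≤ ‖p - q‖ := by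
  obtain ⟨w, f, s, t, hw, hf, hxw, hs, ht, e⟩ := move (x := x) hx hy hp hq hpq
    (by simpa using h0) h1
  exact ⟨w, f, hw, hf, hxw, mono hp.1 hf.1 hq.1 hs ht e⟩

/-- Moving away. -/
theorem move_up [FiniteDimensional ℝ E] {x y : E} {p q : StrongDual ℝ E} {ε : ℝ}
    (hx : ‖x‖ = 1) (hy : ‖y‖ = 1) (hp : p ∈ J x) (hq : q ∈ J y) (hpq : p ≠ q)
    (h0 : ‖x - y‖ ≤ ε) (h1 : ε ≤ 2) :
    ∃ (w : E) (f : StrongDual ℝ E), ‖w‖ = 1 ∧ f ∈ J w ∧ ‖x - w‖ = ε ∧ ‖p - q‖ ≤ ‖p - f‖ := by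
  have h2 : ‖x - -x‖ = 2 := by
    rw [sub_neg_eq_add, ← two_smul ℝ x, norm_smul, hx]; norm_num
  obtain ⟨w, f, s, t, hw, hf, hxw, hs, ht, e⟩ := move (x := x) hy (v0 := -x)
    (by rwa [norm_neg]) hq (J_neg hp) (by rw [neg_neg]; exact fun h => hpq h.symm) h0
    (by rw [h2]; exact h1)
  refine ⟨w, f, hw, hf, hxw, ?_⟩
  rcases hs.eq_or_lt with rfl | hs
  · rw [zero_smul, zero_add] at e
    have ht1 : t = 1 := by
      have := hf.1
      rw [e, norm_smul, norm_neg, hp.1, mul_one, Real.norm_of_nonneg ht] at this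
      exact this
    have : ‖p - f‖ = 2 := by
      rw [e, ht1, one_smul, sub_neg_eq_add, ← two_smul ℝ p, norm_smul, hp.1]; norm_num
    rw [this]
    calc ‖p - q‖ ≤ ‖p‖ + ‖q‖ := norm_sub_le _ _
      _ = 2 := by rw [hp.1, hq.1]; norm_num
  · refine mono hp.1 hq.1 hf.1 (s := t / s) (t := 1 / s) (div_nonneg ht hs.le)
      (by positivity) ?_
    rw [e, smul_add, smul_smul, smul_smul, one_div, inv_mul_cancel₀ hs.ne', one_smul, smul_neg]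
    have : s⁻¹ * t = t / s := by field_simp
    rw [this]
    module

/-- Existence of a pair with large functional distance. -/
def PlusP (E : Type*) [NormedAddCommGroup E] [NormedSpace ℝ E] (ε : ℝ) : Prop :=
  ∃ (x y : E) (p q : StrongDual ℝ E), ‖x‖ = 1 ∧ ‖y‖ = 1 ∧ ‖x - y‖ = ε ∧ p ∈ J x ∧ q ∈ J y ∧
    ε ≤ ‖p - q‖

/-- Existence of a pair with small functional distance. -/
def MinusP (E : Type*) [NormedAddCommGroup E] [NormedSpace ℝ E] (ε : ℝ) : Prop :=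
  ∃ (x y : E) (p q : StrongDual ℝ E), ‖x‖ = 1 ∧ ‖y‖ = 1 ∧ ‖x - y‖ = ε ∧ p ∈ J x ∧ q ∈ J y ∧
    ‖p - q‖ ≤ ε

section dual

variable {F : Type*} [NormedAddCommGroup F] [NormedSpace ℝ F]

/-- The functional on `F` given by a point of `E`. -/
noncomputable def ev (Φ : F ≃ₗᵢ[ℝ] StrongDual ℝ E) (x : E) : StrongDual ℝ F :=
  (ContinuousLinearMap.apply ℝ ℝ x).comp
    (Φ.toContinuousLinearEquiv : F →L[ℝ] StrongDual ℝ E)

theorem ev_apply (Φ : F ≃ₗᵢ[ℝ] StrongDual ℝ E) (x : E) (v : F) : ev Φ x v = Φ v x := rfl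

theorem ev_sub (Φ : F ≃ₗᵢ[ℝ] StrongDual ℝ E) (x y : E) : ev Φ x - ev Φ y = ev Φ (x - y) := by
  ext v
  simp [ev_apply]

theorem norm_ev (Φ : F ≃ₗᵢ[ℝ] StrongDual ℝ E) (x : E) : ‖ev Φ x‖ = ‖x‖ := by
  refine le_antisymm ?_ ?_
  · refine (ev Φ x).opNorm_le_bound (norm_nonneg x) fun v => ?_
    rw [ev_apply]
    calc ‖Φ v x‖ ≤ ‖Φ v‖ * ‖x‖ := (Φ v).le_opNorm x
      _ = ‖x‖ * ‖v‖ := by rw [Φ.norm_map]; ring
  · rcases eq_or_ne x 0 with rfl | hx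
    · simp
    obtain ⟨g, hg1, hg2⟩ := exists_dual_vector ℝ x (norm_ne_zero_iff.2 hx)
    have h1 : ev Φ x (Φ.symm g) = ‖x‖ := by
      rw [ev_apply, LinearIsometryEquiv.apply_symm_apply, hg2]; simp
    calc ‖x‖ = ev Φ x (Φ.symm g) := h1.symm
      _ ≤ ‖ev Φ x (Φ.symm g)‖ := Real.le_norm_self _
      _ ≤ ‖ev Φ x‖ * ‖Φ.symm g‖ := (ev Φ x).le_opNorm _
      _ = ‖ev Φ x‖ := by rw [LinearIsometryEquiv.norm_map, hg1, mul_one]

theorem ev_mem_J (Φ : F ≃ₗᵢ[ℝ] StrongDual ℝ E) {x : E} {p : StrongDual ℝ E} (hx : ‖x‖ = 1)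
    (hp : p ∈ J x) : ev Φ x ∈ J (Φ.symm p) := by
  refine ⟨by rw [norm_ev, hx], ?_⟩
  rw [ev_apply, LinearIsometryEquiv.apply_symm_apply, hp.2]

/-- The upper inequality holds for `E` or for its dual `F`. -/
theorem plus_or [FiniteDimensional ℝ F] (hE : 1 < Module.rank ℝ E)
    (Φ : F ≃ₗᵢ[ℝ] StrongDual ℝ E) {ε : ℝ} (h0 : 0 ≤ ε) (h2 : ε ≤ 2) :
    PlusP E ε ∨ PlusP F ε := by
  have : Nontrivial E := by
    rw [← rank_pos_iff_nontrivial (R := ℝ)]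
    exact lt_trans zero_lt_one hE
  obtain ⟨x, hx⟩ := exists_norm_eq E (zero_le_one (α := ℝ))
  obtain ⟨y, hy, hxy⟩ := exists_dist hE x hx h0 h2
  obtain ⟨p, hp⟩ := exists_J hx
  obtain ⟨q, hq⟩ := exists_J hy
  rcases le_total ε ‖p - q‖ with hc | hc
  · exact Or.inl ⟨x, y, p, q, hx, hy, hxy, hp, hq, hc⟩
  rcases h0.eq_or_lt with rfl | h0
  · exact Or.inl ⟨x, y, p, q, hx, hy, hxy, hp, hq, norm_nonneg _⟩
  have np : ‖Φ.symm p‖ = 1 := by rw [LinearIsometryEquiv.norm_map, hp.1]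
  have nq : ‖Φ.symm q‖ = 1 := by rw [LinearIsometryEquiv.norm_map, hq.1]
  have hne : ev Φ x ≠ ev Φ y := by
    intro h
    have h1 : ‖ev Φ x - ev Φ y‖ = ε := by rw [ev_sub, norm_ev, hxy]
    rw [h, sub_self, norm_zero] at h1
    linarith
  obtain ⟨w, f, hw, hf, hxw, hle⟩ := move_up (ε := ε) np nq (ev_mem_J Φ hx hp) (ev_mem_J Φ hy hq)
    hne (by rw [← map_sub, LinearIsometryEquiv.norm_map]; exact hc) h2
  refine Or.inr ⟨Φ.symm p, w, ev Φ x, f, np, hw, hxw, ev_mem_J Φ hx hp, hf, ?_⟩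
  rw [ev_sub, norm_ev, hxy] at hle
  exact hle

/-- The lower inequality holds for `E` or for its dual `F`. -/
theorem minus_or [FiniteDimensional ℝ F] (hE : 1 < Module.rank ℝ E)
    (Φ : F ≃ₗᵢ[ℝ] StrongDual ℝ E) {ε : ℝ} (h0 : 0 ≤ ε) (h2 : ε ≤ 2) :
    MinusP E ε ∨ MinusP F ε := by
  have : Nontrivial E := by
    rw [← rank_pos_iff_nontrivial (R := ℝ)]
    exact lt_trans zero_lt_one hE
  obtain ⟨x, hx⟩ := exists_norm_eq E (zero_le_one (α := ℝ))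
  obtain ⟨y, hy, hxy⟩ := exists_dist hE x hx h0 h2
  obtain ⟨p, hp⟩ := exists_J hx
  obtain ⟨q, hq⟩ := exists_J hy
  rcases le_or_gt ‖p - q‖ ε with hc | hc
  · exact Or.inl ⟨x, y, p, q, hx, hy, hxy, hp, hq, hc⟩
  have np : ‖Φ.symm p‖ = 1 := by rw [LinearIsometryEquiv.norm_map, hp.1]
  have nq : ‖Φ.symm q‖ = 1 := by rw [LinearIsometryEquiv.norm_map, hq.1]
  have hlt : ε < 2 := by
    refine hc.trans_le ?_
    calc ‖p - q‖ ≤ ‖p‖ + ‖q‖ := norm_sub_le _ _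
      _ = 2 := by rw [hp.1, hq.1]; norm_num
  have hne : ev Φ x ≠ -ev Φ y := by
    intro h
    have h1 : ‖ev Φ x - ev Φ y‖ = ε := by rw [ev_sub, norm_ev, hxy]
    have h3 : -ev Φ y - ev Φ y = (-2 : ℝ) • ev Φ y := by module
    rw [h, h3, norm_smul, norm_ev, hy] at h1
    norm_num at h1
    linarith
  obtain ⟨w, f, hw, hf, hxw, hle⟩ := move_down (ε := ε) np nq (ev_mem_J Φ hx hp)
    (ev_mem_J Φ hy hq) hne h0 (by rw [← map_sub, LinearIsometryEquiv.norm_map]; exact hc.le)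
  refine Or.inr ⟨Φ.symm p, w, ev Φ x, f, np, hw, hxw, ev_mem_J Φ hx hp, hf, ?_⟩
  rw [ev_sub, norm_ev, hxy] at hle
  exact hle

end dual

end Pool.Agent.R222.DM
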