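import Pool.Agent.R222.DM.Iso

set_option autoImplicit false

/-!
# An isosceles pair of unit vectors with distance `√2`
-/

namespace Pool.Agent.R222.DM

open Set Real

variable {E : Type*} [NormedAddCommGroup E] [NormedSpace ℝ E]

/-- The unnormalised curve. -/
noncomputable def cur (x y : E) (θ : ℝ) : E := cos θ • x + sin θ • y

/-- The normalised curve. -/
noncomputable def gam (x y : E) (θ : ℝ) : E := ‖cur x y θ‖⁻¹ • cur x y θ

variable {x y : E}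

theorem cur_ne (h : LinearIndependent ℝ ![x, y]) (θ : ℝ) : cur x y θ ≠ 0 := by
  intro h0
  have := (LinearIndependent.pair_iff.1 h) (cos θ) (sin θ) h0
  have h1 := sin_sq_add_cos_sq θ
  rw [this.1, this.2] at h1
  norm_num at h1

theorem norm_gam (h : LinearIndependent ℝ ![x, y]) (θ : ℝ) : ‖gam x y θ‖ = 1 := by
  rw [gam, norm_smul, norm_inv, norm_norm, inv_mul_cancel₀ (norm_ne_zero_iff.2 (cur_ne h θ))]

theorem continuous_cur : Continuous (cur x y) := by unfold cur; fun_prop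

theorem continuous_gam (h : LinearIndependent ℝ ![x, y]) : Continuous (gam x y) := by
  unfold gam
  exact (continuous_cur.norm.inv₀ fun θ => norm_ne_zero_iff.2 (cur_ne h θ)).smul continuous_cur

theorem cur_rel (θ φ ψ : ℝ) :
    sin (ψ - θ) • cur x y φ = sin (ψ - φ) • cur x y θ + sin (φ - θ) • cur x y ψ := by
  unfold cur
  have e1 : sin (ψ - θ) * cos φ = sin (ψ - φ) * cos θ + sin (φ - θ) * cos ψ := by
    rw [sin_sub, sin_sub, sin_sub]; ring
  have e2 : sin (ψ - θ) * sin φ = sin (ψ - φ) * sin θ + sin (φ - θ) * sin ψ := by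
    rw [sin_sub, sin_sub, sin_sub]; ring
  rw [smul_add, smul_smul, smul_smul, e1, e2]
  module

theorem gam_pi (θ : ℝ) : gam x y (θ + π) = - gam x y θ := by
  have : cur x y (θ + π) = - cur x y θ := by
    unfold cur
    rw [cos_add_pi, sin_add_pi]
    module
  rw [gam, this, norm_neg, smul_neg, gam]

theorem uniq (h : LinearIndependent ℝ ![x, y]) {θ φ ψ : ℝ} (h1 : θ < φ) (h2 : φ < θ + π)
    (h3 : θ < ψ) (h4 : ψ < θ + π)
    (i1 : ‖gam x y θ - gam x y φ‖ = ‖gam x y θ + gam x y φ‖)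
    (i2 : ‖gam x y θ - gam x y ψ‖ = ‖gam x y θ + gam x y ψ‖) :
    ‖gam x y θ - gam x y φ‖ = ‖gam x y θ - gam x y ψ‖ := by
  have s1 : 0 < sin (φ - θ) := sin_pos_of_pos_of_lt_pi (by linarith) (by linarith)
  have s2 : 0 < sin (ψ - θ) := sin_pos_of_pos_of_lt_pi (by linarith) (by linarith)
  have nθ : 0 < ‖cur x y θ‖ := norm_pos_iff.2 (cur_ne h θ)
  have nφ : 0 < ‖cur x y φ‖ := norm_pos_iff.2 (cur_ne h φ)
  have nψ : 0 < ‖cur x y ψ‖ := norm_pos_iff.2 (cur_ne h ψ)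
  refine iso_unique (norm_gam h θ) (norm_gam h φ) (norm_gam h ψ)
    (l := ‖cur x y φ‖⁻¹ * ((sin (ψ - θ))⁻¹ * sin (ψ - φ) * ‖cur x y θ‖))
    (m := ‖cur x y φ‖⁻¹ * ((sin (ψ - θ))⁻¹ * sin (φ - θ) * ‖cur x y ψ‖)) (by positivity) ?_ i1 i2
  have e := cur_rel (x := x) (y := y) θ φ ψ
  have e' : cur x y φ = (sin (ψ - θ))⁻¹ • (sin (ψ - φ) • cur x y θ + sin (φ - θ) • cur x y ψ) := by
    rw [← e, smul_smul, inv_mul_cancel₀ s2.ne', one_smul]
  have f1 : ‖cur x y θ‖ • gam x y θ = cur x y θ := by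
    rw [gam, smul_smul, mul_inv_cancel₀ nθ.ne', one_smul]
  have f2 : ‖cur x y ψ‖ • gam x y ψ = cur x y ψ := by
    rw [gam, smul_smul, mul_inv_cancel₀ nψ.ne', one_smul]
  have f3 : gam x y φ = ‖cur x y φ‖⁻¹ • cur x y φ := rfl
  rw [f3]
  generalize ‖cur x y φ‖⁻¹ = N
  conv_lhs => rw [e', ← f1, ← f2]
  module

/-- The set of isosceles pairs on the curve, with a closed condition on the distance. -/
def KS (x y : E) (C : Set ℝ) : Set (ℝ × ℝ) :=
  {z | z ∈ Icc (0 : ℝ) (π / 4) ×ˢ Icc (0 : ℝ) (2 * π) ∧ z.1 ≤ z.2 ∧ z.2 ≤ z.1 + π ∧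
    ‖gam x y z.1 - gam x y z.2‖ = ‖gam x y z.1 + gam x y z.2‖ ∧
    ‖gam x y z.1 - gam x y z.2‖ ∈ C}

theorem isCompact_KS (h : LinearIndependent ℝ ![x, y]) {C : Set ℝ} (hC : IsClosed C) :
    IsCompact (KS x y C) := by
  have hg := continuous_gam h
  have c1 : Continuous fun z : ℝ × ℝ => gam x y z.1 := hg.comp continuous_fst
  have c2 : Continuous fun z : ℝ × ℝ => gam x y z.2 := hg.comp continuous_snd
  refine IsCompact.of_isClosed_subset (isCompact_Icc.prod isCompact_Icc) ?_ fun z hz => hz.1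
  refine (isClosed_Icc.prod isClosed_Icc).inter ?_
  refine (isClosed_le continuous_fst continuous_snd).inter ?_
  refine (isClosed_le continuous_snd (by fun_prop)).inter ?_
  exact (isClosed_eq (c1.sub c2).norm (c1.add c2).norm).inter (hC.preimage (c1.sub c2).norm)

theorem exists_angle (h : LinearIndependent ℝ ![x, y]) (θ : ℝ) :
    ∃ φ ∈ Icc θ (θ + π), ‖gam x y θ - gam x y φ‖ = ‖gam x y θ + gam x y φ‖ := by
  have hg := continuous_gam h
  have hc : ContinuousOn (fun φ => ‖gam x y θ - gam x y φ‖ - ‖gam x y θ + gam x y φ‖)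
      (Icc θ (θ + π)) := by fun_prop
  have := intermediate_value_Icc (by linarith [pi_pos]) hc
  have hm : (0 : ℝ) ∈ Icc (‖gam x y θ - gam x y θ‖ - ‖gam x y θ + gam x y θ‖)
      (‖gam x y θ - gam x y (θ + π)‖ - ‖gam x y θ + gam x y (θ + π)‖) := by
    rw [gam_pi]
    constructor
    · simp
    · simp
  obtain ⟨φ, hφ, hxy⟩ := this hm
  exact ⟨φ, hφ, by linarith [hxy]⟩

/-- Strictness of the angles of an isosceles pair. -/
theorem strict (h : LinearIndependent ℝ ![x, y]) {θ φ : ℝ} (h1 : θ ≤ φ) (h2 : φ ≤ θ + π)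
    (i1 : ‖gam x y θ - gam x y φ‖ = ‖gam x y θ + gam x y φ‖) : θ < φ ∧ φ < θ + π := by
  have n := norm_gam h θ
  refine ⟨lt_of_le_of_ne h1 ?_, lt_of_le_of_ne h2 ?_⟩
  · rintro rfl
    rw [sub_self, norm_zero, ← two_smul ℝ, norm_smul, n] at i1
    norm_num at i1
  · rintro rfl
    rw [gam_pi, add_neg_cancel, norm_zero, sub_neg_eq_add, ← two_smul ℝ, norm_smul, n] at i1
    norm_num at i1

/-- There is an isosceles pair with distance `c`, if `c` lies between the distances of the isosceles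
pairs at the angles `0` and `π/4`. -/
theorem exists_between (h : LinearIndependent ℝ ![x, y]) {c : ℝ}
    (hA : ∃ z ∈ KS x y (Iic c), True) (hB : ∃ z ∈ KS x y (Ici c), True) :
    ∃ u v : E, ‖u‖ = 1 ∧ ‖v‖ = 1 ∧ ‖u - v‖ = c ∧ ‖u + v‖ = c := by
  have kA := (isCompact_KS h (isClosed_Iic (a := c))).image continuous_fst
  have kB := (isCompact_KS h (isClosed_Ici (a := c))).image continuous_fst
  have hp : IsPreconnected (Icc (0 : ℝ) (π / 4)) := isPreconnected_Icc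
  rw [isPreconnected_closed_iff] at hp
  obtain ⟨θ, hθ, ⟨z, hz, hzθ⟩, ⟨z', hz', hzθ'⟩⟩ := hp _ _ kA.isClosed kB.isClosed (by
    intro θ hθ
    obtain ⟨φ, hφ, hi⟩ := exists_angle h θ
    have hφ2 : φ ∈ Icc (0 : ℝ) (2 * π) :=
      ⟨by linarith [hφ.1, hθ.1], by linarith [hφ.2, hθ.2, pi_pos]⟩
    rcases le_total ‖gam x y θ - gam x y φ‖ c with hc | hc
    · exact Or.inl ⟨(θ, φ), ⟨⟨hθ, hφ2⟩, hφ.1, hφ.2, hi, hc⟩, rfl⟩
    · exact Or.inr ⟨(θ, φ), ⟨⟨hθ, hφ2⟩, hφ.1, hφ.2, hi, hc⟩, rfl⟩)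
    (by
      obtain ⟨z, hz, -⟩ := hA
      exact ⟨z.1, hz.1.1, z, hz, rfl⟩)
    (by
      obtain ⟨z, hz, -⟩ := hB
      exact ⟨z.1, hz.1.1, z, hz, rfl⟩)
  obtain ⟨θ1, φ⟩ := z
  obtain ⟨θ2, ψ⟩ := z'
  simp only at hzθ hzθ'
  subst hzθ
  subst hzθ'
  obtain ⟨-, a1, a2, a3, a4⟩ := hz
  obtain ⟨-, b1, b2, b3, b4⟩ := hz'
  simp only [mem_Iic, mem_Ici] at a1 a2 a3 a4 b1 b2 b3 b4
  obtain ⟨s1, s2⟩ := strict h a1 a2 a3
  obtain ⟨t1, t2⟩ := strict h b1 b2 b3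
  have := uniq h s1 s2 t1 t2 a3 b3
  have e : ‖gam x y θ2 - gam x y φ‖ = c := le_antisymm a4 (this ▸ b4)
  exact ⟨_, _, norm_gam h _, norm_gam h φ, e, a3 ▸ e⟩

end Pool.Agent.R222.DM
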