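import Pool.Agent.R222.DM.Path

set_option autoImplicit false

/-!
# Unit vectors with `‖u - v‖ = ‖u + v‖ = √2`
-/

namespace Pool.Agent.R222.DM

open Set Real

variable {E : Type*} [NormedAddCommGroup E] [NormedSpace ℝ E]

/-- Isosceles unit vectors are linearly independent. -/
theorem indep_of_iso {x y : E} (hx : ‖x‖ = 1) (hy : ‖y‖ = 1) (h : ‖x - y‖ = ‖x + y‖) :
    LinearIndependent ℝ ![x, y] := by
  rw [LinearIndependent.pair_iff]
  intro a b hab
  have hb : b = 0 := by
    by_contra hb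
    have e : y = (-(a / b)) • x := by
      have h1 : b • y = (-a) • x := by
        rw [neg_smul, eq_neg_iff_add_eq_zero, add_comm]; exact hab
      calc y = b⁻¹ • (b • y) := by rw [smul_smul, inv_mul_cancel₀ hb, one_smul]
        _ = (-(a / b)) • x := by rw [h1, smul_smul]; congr 1; field_simp
    set k : ℝ := -(a / b)
    have hk : |k| = 1 := by
      have := hy
      rw [e, norm_smul, hx, mul_one, Real.norm_eq_abs] at this
      exact this
    have e1 : x - y = (1 - k) • x := by rw [e]; module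
    have e2 : x + y = (1 + k) • x := by rw [e]; module
    rw [e1, e2, norm_smul, norm_smul, hx, mul_one, mul_one, Real.norm_eq_abs,
      Real.norm_eq_abs] at h
    rcases (abs_eq (by norm_num : (0 : ℝ) ≤ 1)).1 hk with hk | hk
    · rw [hk] at h; norm_num at h
    · rw [hk] at h; norm_num at h
  subst hb
  rw [zero_smul, add_zero] at hab
  refine ⟨?_, rfl⟩
  rcases smul_eq_zero.1 hab with h1 | h1
  · exact h1
  · rw [h1, norm_zero] at hx; norm_num at hx

/-- Unit vectors with `‖u - v‖ = ‖u + v‖ = √2`. -/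
theorem exists_sqrt_two (hE : 1 < Module.rank ℝ E) :
    ∃ u v : E, ‖u‖ = 1 ∧ ‖v‖ = 1 ∧ ‖u - v‖ = √2 ∧ ‖u + v‖ = √2 := by
  have : Nontrivial E := by
    rw [← rank_pos_iff_nontrivial (R := ℝ)]
    exact lt_trans zero_lt_one hE
  obtain ⟨x, hx⟩ := exists_norm_eq E (zero_le_one (α := ℝ))
  obtain ⟨y, hy, hxy⟩ := exists_iso hE x hx
  have hli := indep_of_iso hx hy hxy
  have hli' := indep_of_iso hx hy hxy
  set ε : ℝ := ‖x - y‖ with hε
  have hε0 : 0 < ε := by
    rw [hε, norm_pos_iff, sub_ne_zero]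
    rintro rfl
    rw [hε, sub_self, norm_zero, ← two_smul ℝ, norm_smul, hx] at hxy
    norm_num at hxy
  have g0 : gam x y 0 = x := by simp [gam, cur, hx]
  have g1 : gam x y (π / 2) = y := by simp [gam, cur, hy]
  have c2 : cur x y (π / 4) = (√2 / 2) • (x + y) := by
    simp [cur, smul_add]
  have c3 : cur x y (3 * π / 4) = (√2 / 2) • (y - x) := by
    have a1 : cos (3 * π / 4) = -(√2 / 2) := by
      rw [show 3 * π / 4 = π - π / 4 by ring, cos_pi_sub, cos_pi_div_four]
    have a2 : sin (3 * π / 4) = √2 / 2 := by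
      rw [show 3 * π / 4 = π - π / 4 by ring, sin_pi_sub, sin_pi_div_four]
    rw [cur, a1, a2]
    module
  have hs : (0 : ℝ) < √2 / 2 := by positivity
  have g2 : gam x y (π / 4) = ε⁻¹ • (x + y) := by
    rw [gam, c2, norm_smul, ← hxy, Real.norm_of_nonneg hs.le, smul_smul]
    congr 1
    field_simp
  have g3 : gam x y (3 * π / 4) = ε⁻¹ • (y - x) := by
    rw [gam, c3, norm_smul, norm_sub_rev, ← hε, Real.norm_of_nonneg hs.le, smul_smul]
    congr 1
    field_simp
  have d1 : ‖gam x y (π / 4) - gam x y (3 * π / 4)‖ = 2 / ε := by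
    have : gam x y (π / 4) - gam x y (3 * π / 4) = (2 / ε) • x := by
      rw [g2, g3, div_eq_inv_mul]; module
    rw [this, norm_smul, hx, mul_one, Real.norm_of_nonneg (by positivity)]
  have d2 : ‖gam x y (π / 4) + gam x y (3 * π / 4)‖ = 2 / ε := by
    have : gam x y (π / 4) + gam x y (3 * π / 4) = (2 / ε) • y := by
      rw [g2, g3, div_eq_inv_mul]; module
    rw [this, norm_smul, hy, mul_one, Real.norm_of_nonneg (by positivity)]
  have m1 : ∀ C : Set ℝ, ε ∈ C → ∃ z ∈ KS x y C, True := by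
    intro C hC
    refine ⟨(0, π / 2), ⟨⟨⟨le_rfl, by positivity⟩, by positivity, by linarith [pi_pos]⟩,
      by positivity, by linarith [pi_pos], ?_, ?_⟩, trivial⟩
    · simp only [g0, g1]; exact hxy
    · simp only [g0, g1]; exact hC
  have m2 : ∀ C : Set ℝ, 2 / ε ∈ C → ∃ z ∈ KS x y C, True := by
    intro C hC
    refine ⟨(π / 4, 3 * π / 4), ⟨⟨⟨by positivity, le_rfl⟩, by positivity, by linarith [pi_pos]⟩,
      by dsimp only; linarith [pi_pos], by dsimp only; linarith [pi_pos], ?_, ?_⟩, trivial⟩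
    · simp only [d1, d2]
    · simp only [d1]; exact hC
  have h2 : √2 * √2 = 2 := Real.mul_self_sqrt (by norm_num)
  rcases le_total ε √2 with hc | hc
  · refine exists_between hli' (m1 _ hc) (m2 _ ?_)
    rw [mem_Ici, le_div_iff₀ hε0]
    nlinarith [Real.sqrt_nonneg 2]
  · refine exists_between hli' (m2 _ ?_) (m1 _ hc)
    rw [mem_Iic, div_le_iff₀ hε0]
    nlinarith [Real.sqrt_nonneg 2]

end Pool.Agent.R222.DM
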