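import Pool.Agent.R222.DM.Dual

set_option autoImplicit false

/-!
# Moving along an arc of the dual sphere
-/

namespace Pool.Agent.R222.DM

open Set Real

variable {E : Type*} [NormedAddCommGroup E] [NormedSpace ℝ E]

/-- The segment of functionals. -/
noncomputable def seg (p q : StrongDual ℝ E) (t : ℝ) : StrongDual ℝ E := (1 - t) • p + t • q

theorem seg_apply (p q : StrongDual ℝ E) (t : ℝ) (y : E) :
    seg p q t y = (1 - t) * p y + t * q y := rfl

theorem seg_ne {p q : StrongDual ℝ E} (hp : ‖p‖ = 1) (hq : ‖q‖ = 1) (h : ‖p - q‖ < 2) {t : ℝ}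
    (ht : t ∈ Icc (0 : ℝ) 1) : seg p q t ≠ 0 := by
  intro h0
  have e : (1 - t) • p = -(t • q) := eq_neg_of_add_eq_zero_left h0
  have hn : 1 - t = t := by
    have := congrArg norm e
    rw [norm_neg, norm_smul, norm_smul, hp, hq, Real.norm_of_nonneg (by linarith [ht.2]),
      Real.norm_of_nonneg ht.1, mul_one, mul_one] at this
    exact this
  have ht2 : t = 1 / 2 := by linarith
  subst ht2
  have e2 : p = -q := by
    have : p = (2 : ℝ) • ((1 - 1 / 2 : ℝ) • p) := by rw [smul_smul]; norm_num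
    rw [this, e, smul_neg, smul_smul]; norm_num
  rw [e2] at h
  have : ‖-q - q‖ = 2 := by
    have : -q - q = (-2 : ℝ) • q := by module
    rw [this, norm_smul, hq]; norm_num
  linarith

/-- Points of the sphere where the functionals of the segment attain their norm. -/
def KT (x : E) (p q : StrongDual ℝ E) (C : Set ℝ) : Set (ℝ × E) :=
  {z | z ∈ Icc (0 : ℝ) 1 ×ˢ Metric.sphere (0 : E) 1 ∧ seg p q z.1 z.2 = ‖seg p q z.1‖ ∧
    ‖x - z.2‖ ∈ C}

theorem isCompact_KT [FiniteDimensional ℝ E] (x : E) (p q : StrongDual ℝ E) {C : Set ℝ}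
    (hC : IsClosed C) : IsCompact (KT x p q C) := by
  refine IsCompact.of_isClosed_subset (isCompact_Icc.prod (isCompact_sphere (0 : E) 1)) ?_
    fun z hz => hz.1
  refine (isClosed_Icc.prod Metric.isClosed_sphere).inter ?_
  refine IsClosed.inter ?_ (hC.preimage (by fun_prop))
  refine isClosed_eq ?_ ?_
  · simp only [seg_apply]
    fun_prop
  · unfold seg
    fun_prop

theorem transfer [FiniteDimensional ℝ E] {ε : ℝ} (hε0 : 0 < ε) (hε2 : ε < 2) (h : PairD E ε) :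
    ∃ (x y : E) (p q : StrongDual ℝ E), ‖x‖ = 1 ∧ ‖y‖ = 1 ∧ ‖x - y‖ = ε ∧ p ∈ J x ∧ q ∈ J y ∧
      ‖p - q‖ ≤ ε := by
  obtain ⟨x, y, p, q, hx, hy, hpq, hp, hq, hxy⟩ := h
  have : Nontrivial E := ⟨x, 0, by rintro rfl; rw [norm_zero] at hx; norm_num at hx⟩
  have hd : ε ≤ ‖x - y‖ := by
    have h1 : (p - q) (x - y) ≤ ε * ‖x - y‖ := by
      rw [← hpq]
      exact (Real.le_norm_self _).trans ((p - q).le_opNorm _)
    have h2 : ε * ε ≤ ε * ‖x - y‖ := by nlinarith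
    exact le_of_mul_le_mul_left h2 hε0
  have kA := (isCompact_KT x p q (isClosed_Iic (a := ε))).image continuous_fst
  have kB := (isCompact_KT x p q (isClosed_Ici (a := ε))).image continuous_fst
  have hpre : IsPreconnected (Icc (0 : ℝ) 1) := isPreconnected_Icc
  rw [isPreconnected_closed_iff] at hpre
  obtain ⟨t, ht, ⟨z, hz, hzt⟩, ⟨z', hz', hzt'⟩⟩ := hpre _ _ kA.isClosed kB.isClosed (by
    intro t ht
    obtain ⟨v, hv, hv2⟩ := exists_attain (seg p q t)
    rcases le_total ‖x - v‖ ε with hc | hc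
    · exact Or.inl ⟨(t, v), ⟨⟨ht, by simpa using hv⟩, hv2, hc⟩, rfl⟩
    · exact Or.inr ⟨(t, v), ⟨⟨ht, by simpa using hv⟩, hv2, hc⟩, rfl⟩)
    ⟨0, by simp, (0, x), ⟨⟨by simp, by simpa using hx⟩, by
      simp [seg, hp.1, hp.2], by
      simp only [sub_self, norm_zero, mem_Iic]; exact hε0.le⟩, rfl⟩
    ⟨1, by simp, (1, y), ⟨⟨by simp, by simpa using hy⟩, by
      simp [seg, hq.1, hq.2], hd⟩, rfl⟩
  obtain ⟨t1, u⟩ := z
  obtain ⟨t2, v⟩ := z'
  simp only at hzt hzt'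
  subst hzt
  subst hzt'
  obtain ⟨⟨-, a1⟩, a2, a3⟩ := hz
  obtain ⟨⟨-, b1⟩, b2, b3⟩ := hz'
  simp only [mem_Iic, mem_Ici, mem_sphere_iff_norm, sub_zero] at a1 a2 a3 b1 b2 b3
  have hc0 : 0 < ‖seg p q t2‖ := norm_pos_iff.2 (seg_ne hp.1 hq.1 (by rw [hpq]; exact hε2) ht)
  have hcont : ContinuousOn (fun s : ℝ => ‖x - ((1 - s) • u + s • v)‖) (Icc 0 1) := by fun_prop
  have hiv := intermediate_value_Icc (zero_le_one (α := ℝ)) hcont
  obtain ⟨s, hs, hsε⟩ := hiv (show ε ∈ Icc _ _ by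
    simp only [sub_zero, one_smul, zero_smul, add_zero, sub_self, zero_add]
    exact ⟨a3, b3⟩)
  simp only at hsε
  set w : E := (1 - s) • u + s • v with hw
  have cw : seg p q t2 w = ‖seg p q t2‖ := by
    rw [hw, map_add, map_smul, map_smul, a2, b2, smul_eq_mul, smul_eq_mul]; ring
  have hw1 : ‖w‖ = 1 := by
    refine le_antisymm ?_ ?_
    · calc ‖w‖ ≤ ‖(1 - s) • u‖ + ‖s • v‖ := norm_add_le _ _
        _ = 1 := by
          rw [norm_smul, norm_smul, a1, b1, Real.norm_of_nonneg (by linarith [hs.2]),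
            Real.norm_of_nonneg hs.1]; ring
    · have h1 : ‖seg p q t2‖ ≤ ‖seg p q t2‖ * ‖w‖ := by
        calc ‖seg p q t2‖ = seg p q t2 w := cw.symm
          _ ≤ ‖seg p q t2 w‖ := Real.le_norm_self _
          _ ≤ _ := (seg p q t2).le_opNorm w
      by_contra hlt
      push Not at hlt
      nlinarith
  have hq1 : ‖‖seg p q t2‖⁻¹ • seg p q t2‖ = 1 := by
    rw [norm_smul, norm_inv, norm_norm, inv_mul_cancel₀ hc0.ne']
  refine ⟨x, w, p, ‖seg p q t2‖⁻¹ • seg p q t2, hx, hw1, hsε, hp, ⟨hq1, ?_⟩, ?_⟩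
  · change ‖seg p q t2‖⁻¹ * seg p q t2 w = 1
    rw [cw, inv_mul_cancel₀ hc0.ne']
  · rw [← hpq]
    refine mono hp.1 hq1 hq.1 (s := ‖seg p q t2‖⁻¹ * (1 - t2)) (t := ‖seg p q t2‖⁻¹ * t2)
      (mul_nonneg (by positivity) (by linarith [ht.2])) (mul_nonneg (by positivity) ht.1) ?_
    rw [← smul_smul, ← smul_smul, ← smul_add]
    rfl

end Pool.Agent.R222.DM
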